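import Pool.Agent.H99.SubFine

set_option autoImplicit false

open Module Submodule Finset Pool.Agent.H99.SubDeg

namespace Pool.Agent.Results.MP_e960f8_co.AdditiveRange

open scoped Classical in
/-- The set of all numbers of high points (points of degree `> [n-2 choose k-2]_q`) of
intersecting families of `k`-dimensional subspaces of `K^n`; `h_q(n,k)` is its maximum. -/
def highCounts (K : Type) [Field K] [Finite K] (n k : ℕ) : Set ℕ :=
  {m : ℕ | ∃ F : Finset (Submodule K (Fin n → K)),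
    (∀ A ∈ F, finrank K A = k) ∧ (∀ A ∈ F, ∀ B ∈ F, A ⊓ B ≠ ⊥) ∧
    m = (univ.filter (fun P : Submodule K (Fin n → K) => finrank K P = 1 ∧
      gb (Nat.card K) (n - 2) (k - 2) < (F.filter (fun A => P ≤ A)).card)).card}

lemma highCounts_eq (K : Type) [Field K] [Finite K] (n k : ℕ) : highCounts K n k
      = {m : ℕ | ∃ F : Finset (Submodule K (Fin n → K)), Inter k F ∧ m = (high k F).card} := by
  have hV : finrank K (Fin n → K) = n := by simp
  ext m
  constructor
  · rintro ⟨F, h1, h2, h3⟩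
    refine ⟨F, ⟨h1, h2⟩, ?_⟩
    rw [h3, high, hV]
    rfl
  · rintro ⟨F, ⟨h1, h2⟩, h3⟩
    refine ⟨F, h1, h2, ?_⟩
    rw [h3, high, hV]
    rfl

variable (K : Type) [Field K] [Finite K]

lemma main (n k : ℕ) (hk : 3 ≤ k) (hr : 2 * k + 3 ≤ n ∨ (3 ≤ Nat.card K ∧ 2 * k + 2 ≤ n)) :
    IsGreatest (highCounts K n k) (br (Nat.card K) (k + 1)) := by
  have hV : finrank K (Fin n → K) = n := by simp
  rw [highCounts_eq]
  exact greatest (K := K) (V := Fin n → K) k hk (by rw [hV]; exact hr)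

lemma main2 (n k : ℕ) (hk : 7 ≤ k) (hr : 2 * k + 2 ≤ n ∨ (3 ≤ Nat.card K ∧ 2 * k + 1 ≤ n)) :
    IsGreatest (highCounts K n k) (br (Nat.card K) (k + 1)) := by
  have hV : finrank K (Fin n → K) = n := by simp
  rw [highCounts_eq]
  exact greatest2 (K := K) (V := Fin n → K) k hk (by rw [hV]; exact hr)

/-- **MP_e960f8_co: `h_q(n,k) = [k+1]_q`** for all `n ≥ 2k+1` if `q ≥ 3` and for all `n ≥ 2k+2`
if `q = 2`, when `k ≥ 7` (for `3 ≤ k ≤ 6`: when `n ≥ 2k+2`, respectively `n ≥ 2k+3`).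
This is Q1 for every `q ≥ 3`, and Q2 for every `q` (with `M_q = 2`).
The last clause says that `gb q a b` counts the `b`-dimensional subspaces of `K^a`. -/
theorem result :
    (∀ n k : ℕ,
      (7 ≤ k ∧ (2 * k + 2 ≤ n ∨ (3 ≤ Nat.card K ∧ 2 * k + 1 ≤ n))) ∨
      (3 ≤ k ∧ (2 * k + 3 ≤ n ∨ (3 ≤ Nat.card K ∧ 2 * k + 2 ≤ n))) →
      IsGreatest (highCounts K n k) (br (Nat.card K) (k + 1))) ∧
    (∀ a b : ℕ, b ≤ a →
      gb (Nat.card K) a b = Nat.card {W : Submodule K (Fin a → K) // finrank K W = b}) := by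
  refine ⟨?_, ?_⟩
  · rintro n k (⟨hk, hr⟩ | ⟨hk, hr⟩)
    · exact main2 K n k hk hr
    · exact main K n k hk hr
  · intro a b hab
    have hV : finrank K (Fin a → K) = a := by simp
    have h2 := cnt_eq_gb (K := K) (Fin a → K) b (by omega)
    rw [hV] at h2
    rw [← h2, cnt, Nat.card_eq_fintype_card, Fintype.card_subtype]

end Pool.Agent.Results.MP_e960f8_co.AdditiveRange
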